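import Mathlib

/-!
# Project PTR: eventual inequalities for the step
-/

set_option autoImplicit false

namespace Pool.Agent.V5helper18.PTR

open Filter Real

/-- (e) -/
lemma rpow_le_sqrt {x κ : ℝ} (hx : 16 ≤ x) (hκ : κ ≤ 1 / 4) : x ^ κ ≤ √x / 2 := by
  have h1 : x ^ κ ≤ x ^ (1 / 4 : ℝ) := rpow_le_rpow_of_exponent_le (by linarith) hκ
  have h2 : (2 : ℝ) ≤ x ^ (1 / 4 : ℝ) := by
    calc (2 : ℝ) = (16 : ℝ) ^ (1 / 4 : ℝ) := by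
          rw [show (16 : ℝ) = 2 ^ (4 : ℝ) by norm_num, ← rpow_mul (by norm_num)]
          norm_num
      _ ≤ x ^ (1 / 4 : ℝ) := rpow_le_rpow (by norm_num) hx (by norm_num)
  have h3 : √x = x ^ (1 / 4 : ℝ) * x ^ (1 / 4 : ℝ) := by
    rw [← rpow_add (by linarith), sqrt_eq_rpow]
    norm_num
  have h4 : (0 : ℝ) ≤ x ^ (1 / 4 : ℝ) := by positivity
  nlinarith

theorem ineq (s : ℕ) (hs : 1 ≤ s) (β : ℝ) (hβ : 0 < β) (hβ' : β ≤ 1 / 12) :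
    ∃ N₀ : ℕ, ∀ N : ℕ, N₀ ≤ N → ∀ M : ℕ, exp N < M → (M : ℝ) ≤ 4 * exp N + N →
      16 ≤ N ∧ N < M ∧
      4 * (log M) ^ s + 2 * N ≤ (N : ℝ) ^ (s + 1) ∧
      (N : ℝ) ≤ (N : ℝ) ^ (s + 1) ∧
      (N : ℝ) ^ (s + 1) + 1 ≤ (M : ℝ) ^ β ∧
      (N : ℝ) ^ (s + 1) ≤ (⌊(M : ℝ) ^ β⌋₊ : ℝ) ∧
      (M : ℝ) ^ β ≤ (M : ℝ) ^ (1 / 12 : ℝ) ∧
      (M : ℝ) ^ β + (N : ℝ) ^ (1 / 10 : ℝ) ≤ (M : ℝ) ^ (1 / 10 : ℝ) ∧
      (M : ℝ) ^ (β / 4) ≤ √(⌊(M : ℝ) ^ β⌋₊ : ℝ) / 2 ∧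
      (M : ℝ) ^ (1 / 10 : ℝ) ≤ M := by
  have e1 : ∀ᶠ t : ℝ in atTop, t ^ (s + 1) + 1 ≤ exp (β * t) := by
    have h := (isLittleO_pow_exp_pos_mul_atTop (s + 1) hβ).bound (show (0 : ℝ) < 1 / 2 by norm_num)
    filter_upwards [h, eventually_ge_atTop (1 : ℝ)] with t ht ht1
    rw [norm_eq_abs, norm_eq_abs, abs_of_pos (exp_pos _), abs_of_nonneg (by positivity)] at ht
    have : (1 : ℝ) ≤ t ^ (s + 1) := one_le_pow₀ ht1
    linarith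
  have e2 : ∀ᶠ t : ℝ in atTop, t + 3 ≤ exp ((β / 4) * t) := by
    have h := (isLittleO_pow_exp_pos_mul_atTop 1 (show (0 : ℝ) < β / 4 by positivity)).bound
      (show (0 : ℝ) < 1 / 4 by norm_num)
    filter_upwards [h, eventually_ge_atTop (1 : ℝ)] with t ht ht1
    rw [norm_eq_abs, norm_eq_abs, abs_of_pos (exp_pos _), abs_of_nonneg (by positivity), pow_one] at ht
    linarith
  have e3 : ∀ᶠ t : ℝ in atTop, t + 2 ≤ exp ((1 / 60) * t) := by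
    have h := (isLittleO_pow_exp_pos_mul_atTop 1 (show (0 : ℝ) < 1 / 60 by norm_num)).bound
      (show (0 : ℝ) < 1 / 3 by norm_num)
    filter_upwards [h, eventually_ge_atTop (1 : ℝ)] with t ht ht1
    rw [norm_eq_abs, norm_eq_abs, abs_of_pos (exp_pos _), abs_of_nonneg (by positivity), pow_one] at ht
    linarith
  obtain ⟨N₁, hN₁⟩ := eventually_atTop.1 (tendsto_natCast_atTop_atTop.eventually (e1.and (e2.and e3)))
  refine ⟨max N₁ (4 * 2 ^ s + 16), ?_⟩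
  intro N hN M hM1 hM2
  obtain ⟨f1, f2, f3⟩ := hN₁ N ((le_max_left _ _).trans hN)
  have hNs : 4 * 2 ^ s + 16 ≤ N := (le_max_right _ _).trans hN
  have hN16 : 16 ≤ N := by omega
  have hN1 : (16 : ℝ) ≤ N := by exact_mod_cast hN16
  have hNe : (N : ℝ) + 1 ≤ exp N := add_one_le_exp _
  have hM0 : (0 : ℝ) < M := (exp_pos _).trans hM1
  have hMN : (N : ℝ) + 1 < M := lt_of_le_of_lt hNe hM1
  have hM1' : (1 : ℝ) ≤ M := by linarith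
  have hpow : ∀ c : ℝ, 0 ≤ c → exp (c * N) ≤ (M : ℝ) ^ c := by
    intro c hc
    rw [rpow_def_of_pos hM0]
    apply exp_le_exp.2
    have : (N : ℝ) ≤ log M := by
      rw [le_log_iff_exp_le hM0]
      exact hM1.le
    rw [mul_comm]
    exact mul_le_mul_of_nonneg_right this hc
  have hlog0 : 0 ≤ log (M : ℝ) := log_nonneg hM1'
  have hlog : log (M : ℝ) ≤ 2 * N := by
    have h5 : (M : ℝ) ≤ exp (2 * N) := by
      have h6 : exp (2 * (N : ℝ)) = exp N * exp N := by rw [← exp_add]; ring_nf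
      rw [h6]
      nlinarith
    calc log (M : ℝ) ≤ log (exp (2 * N)) := log_le_log hM0 h5
      _ = 2 * N := log_exp _
  have ha : 4 * (log M) ^ s + 2 * N ≤ (N : ℝ) ^ (s + 1) := by
    have h1 : (log M) ^ s ≤ 2 ^ s * (N : ℝ) ^ s := by
      rw [← mul_pow]
      exact pow_le_pow_left₀ hlog0 hlog s
    have h2 : (N : ℝ) ≤ (N : ℝ) ^ s := le_self_pow₀ (by linarith) (by omega)
    have h3 : (4 * 2 ^ s + 16 : ℝ) ≤ N := by exact_mod_cast hNs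
    have h4 : (0 : ℝ) ≤ (N : ℝ) ^ s := by positivity
    calc 4 * (log M) ^ s + 2 * N ≤ 4 * (2 ^ s * (N : ℝ) ^ s) + 2 * (N : ℝ) ^ s := by linarith
      _ ≤ (4 * 2 ^ s + 16 : ℝ) * (N : ℝ) ^ s := by nlinarith
      _ ≤ N * (N : ℝ) ^ s := mul_le_mul_of_nonneg_right h3 h4
      _ = (N : ℝ) ^ (s + 1) := by rw [pow_succ]; ring
  have hb1 : (N : ℝ) ≤ (N : ℝ) ^ (s + 1) := le_self_pow₀ (by linarith) (by omega)
  have hb2 : (N : ℝ) ^ (s + 1) + 1 ≤ (M : ℝ) ^ β := f1.trans (hpow β hβ.le)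
  have hb3 : (N : ℝ) ^ (s + 1) ≤ (⌊(M : ℝ) ^ β⌋₊ : ℝ) := by
    have := Nat.sub_one_lt_floor ((M : ℝ) ^ β)
    linarith
  have hc1 : (M : ℝ) ^ β ≤ (M : ℝ) ^ (1 / 12 : ℝ) := rpow_le_rpow_of_exponent_le hM1' hβ'
  have hc2 : (N : ℝ) ^ (1 / 10 : ℝ) ≤ (M : ℝ) ^ (1 / 12 : ℝ) := by
    calc (N : ℝ) ^ (1 / 10 : ℝ) ≤ (N : ℝ) ^ (1 : ℝ) :=
          rpow_le_rpow_of_exponent_le (by linarith) (by norm_num)
      _ = N := rpow_one _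
      _ ≤ exp ((1 / 60) * N) := by linarith
      _ ≤ exp ((1 / 12) * N) := exp_le_exp.2 (by nlinarith)
      _ ≤ (M : ℝ) ^ (1 / 12 : ℝ) := hpow _ (by norm_num)
  have hc3 : (2 : ℝ) ≤ (M : ℝ) ^ (1 / 60 : ℝ) := by
    refine le_trans ?_ (hpow (1 / 60) (by norm_num))
    linarith
  have hc : (M : ℝ) ^ β + (N : ℝ) ^ (1 / 10 : ℝ) ≤ (M : ℝ) ^ (1 / 10 : ℝ) := by
    have h1 : (M : ℝ) ^ (1 / 10 : ℝ) = (M : ℝ) ^ (1 / 12 : ℝ) * (M : ℝ) ^ (1 / 60 : ℝ) := by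
      rw [← rpow_add hM0]
      norm_num
    rw [h1]
    have h2 : (0 : ℝ) ≤ (M : ℝ) ^ (1 / 12 : ℝ) := by positivity
    nlinarith
  have hd : (M : ℝ) ^ (β / 4) ≤ √(⌊(M : ℝ) ^ β⌋₊ : ℝ) / 2 := by
    have h1 : (3 : ℝ) ≤ (M : ℝ) ^ (β / 4) := by
      refine le_trans ?_ (hpow (β / 4) (by positivity))
      linarith
    have h2 : (M : ℝ) ^ β = ((M : ℝ) ^ (β / 4)) ^ 4 := by
      rw [← rpow_natCast, ← rpow_mul hM0.le]
      congr 1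
      push_cast
      ring
    set u := (M : ℝ) ^ (β / 4) with hu
    have h3 := Nat.sub_one_lt_floor ((M : ℝ) ^ β)
    have h4 : (2 * u) ^ 2 ≤ (⌊(M : ℝ) ^ β⌋₊ : ℝ) := by
      have h6 : (4 * u ^ 2 + 1 : ℝ) ≤ u ^ 4 := by nlinarith [sq_nonneg (u ^ 2 - 9), sq_nonneg (u - 3)]
      rw [h2] at h3 ⊢
      have : (2 * u) ^ 2 = 4 * u ^ 2 := by ring
      linarith
    have h5 : 2 * u ≤ √(⌊(M : ℝ) ^ β⌋₊ : ℝ) := le_sqrt_of_sq_le h4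
    linarith
  refine ⟨hN16, ?_, ha, hb1, hb2, hb3, hc1, hc, hd, ?_⟩
  · have : (N : ℝ) < M := by linarith
    exact_mod_cast this
  · calc (M : ℝ) ^ (1 / 10 : ℝ) ≤ (M : ℝ) ^ (1 : ℝ) := rpow_le_rpow_of_exponent_le hM1' (by norm_num)
      _ = M := rpow_one _

end Pool.Agent.V5helper18.PTR
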